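import Mathlib

namespace Pool.Agent.Results.MP_24384b_lc.No

open Finset

/-- deterministic one-way machine with `k` counters; `none` is the end of the input -/
structure Mach (α Q : Type) (k : ℕ) where
  δ : Q → Option α → (Fin k → Bool) → Option (Q × Bool × (Fin k → SignType))
  start : Q
  final : Set Q

/-- state, counters, last direction of each counter, number of reversals so far -/
@[ext] structure Core (Q : Type) (k : ℕ) where
  q : Q
  cnt : Fin k → ℕ
  dir : Fin k → SignType
  rev : ℕ

variable {α Q : Type} {k : ℕ}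

/-- one move on the scanned symbol `a` -/
def Move (M : Mach α Q k) (x : Core Q k) (a : Option α) (mv : Bool) (y : Core Q k) : Prop :=
  ∃ s : Fin k → SignType, M.δ x.q a (fun j => decide (x.cnt j = 0)) = some (y.q, mv, s) ∧
    (∀ j, (y.cnt j : ℤ) = x.cnt j + (s j : ℤ)) ∧
    (∀ j, y.dir j = if s j = 0 then x.dir j else s j) ∧
    y.rev = x.rev + #{j | s j ≠ 0 ∧ x.dir j = - s j}

/-- computations of a given length; the list is the unread input -/
inductive Steps (M : Mach α Q k) : ℕ → Core Q k → List α → Core Q k → List α → Prop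
  | zero (x w) : Steps M 0 x w x w
  | stay {n x w y z w'} : Move M x w.head? false y → Steps M n y w z w' → Steps M (n + 1) x w z w'
  | right {n x a w y z w'} : Move M x (some a) true y → Steps M n y w z w' →
      Steps M (n + 1) x (a :: w) z w'

/-- initial data -/
def init (M : Mach α Q k) : Core Q k := ⟨M.start, fun _ => 0, fun _ => 0, 0⟩

/-- quasi-realtime -/
def QR (M : Mach α Q k) : Prop :=
  ∃ d : ℕ, ∀ w i x u j y, Steps M i (init M) w x u → Steps M j x u y u → j ≤ d

/-- blind: moves ignore the zero tests -/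
def Blind (M : Mach α Q k) : Prop := ∀ q a z z', M.δ q a z = M.δ q a z'

/-- words with an accepting computation with at most `c` reversals -/
def LR (c : ℕ) (M : Mach α Q k) : Set (List α) :=
  {w | ∃ n z, Steps M n (init M) w z [] ∧ z.q ∈ M.final ∧ (∀ j, z.cnt j = 0) ∧ z.rev ≤ c}

/-- the class for QR-DCOUNTER -/
def DCounter (α : Type) (c : ℕ) : Set (Set (List α)) :=
  {L | ∃ (Q : Type) (_ : Finite Q) (k : ℕ) (M : Mach α Q k), QR M ∧ L = LR c M}

/-- the class for QR-DPBLIND -/
def DPBlind (α : Type) (c : ℕ) : Set (Set (List α)) :=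
  {L | ∃ (Q : Type) (_ : Finite Q) (k : ℕ) (M : Mach α Q k), QR M ∧ Blind M ∧ L = LR c M}

section
variable {M : Mach α Q k}

/-- consume exactly a word -/
inductive Cons (M : Mach α Q k) : List α → Core Q k → Core Q k → Prop
  | nil (x) : Cons M [] x x
  | stay {a u x y z} : Move M x (some a) false y → Cons M (a :: u) y z → Cons M (a :: u) x z
  | right {a u x y z} : Move M x (some a) true y → Cons M u y z → Cons M (a :: u) x z

theorem Steps.trans {n m x w y u z v} (h : Steps M n x w y u) (h' : Steps M m y u z v) :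
    Steps M (m + n) x w z v := by
  induction h with
  | zero => exact h'
  | stay h1 _ ih => exact .stay h1 (ih h')
  | right h1 _ ih => exact .right h1 (ih h')

theorem Cons.steps {u x y} (h : Cons M u x y) (v : List α) : ∃ n, Steps M n x (u ++ v) y v := by
  induction h with
  | nil => exact ⟨0, .zero _ _⟩
  | stay h1 _ ih => obtain ⟨n, hn⟩ := ih; exact ⟨n + 1, .stay h1 hn⟩
  | right h1 _ ih => obtain ⟨n, hn⟩ := ih; exact ⟨n + 1, .right h1 hn⟩

theorem split {n x w z e} (h : Steps M n x w z e) (he : e = []) :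
    ∀ u v, w = u ++ v → ∃ y m, Cons M u x y ∧ Steps M m y v z [] := by
  induction h with
  | zero x w =>
    subst he
    intro u v h
    obtain ⟨rfl, rfl⟩ := List.append_eq_nil_iff.1 h.symm
    exact ⟨x, 0, .nil _, .zero _ _⟩
  | @stay n x w y z w' h1 h2 ih =>
    subst he
    rintro (_ | ⟨a, u⟩) v rfl
    · exact ⟨x, _, .nil _, .stay h1 h2⟩
    · obtain ⟨y', m, h3, h4⟩ := ih rfl (a :: u) v rfl
      exact ⟨y', m, .stay h1 h3, h4⟩
  | @right n x a w y z w' h1 h2 ih =>
    subst he
    rintro (_ | ⟨b, u⟩) v h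
    · obtain rfl : v = a :: w := h.symm
      exact ⟨x, _, .nil _, .right h1 h2⟩
    · obtain ⟨rfl, rfl⟩ := List.cons.inj h
      obtain ⟨y', m, h3, h4⟩ := ih rfl u v rfl
      exact ⟨y', m, .right h1 h3, h4⟩

theorem Move.det {x a mv mv' y y'} (h : Move M x a mv y) (h' : Move M x a mv' y') :
    mv = mv' ∧ y = y' := by
  obtain ⟨s, h1, h2, h3, h4⟩ := h
  obtain ⟨s', h1', h2', h3', h4'⟩ := h'
  rw [h1] at h1'
  simp only [Option.some.injEq, Prod.mk.injEq] at h1'
  obtain ⟨e1, e2, rfl⟩ := h1'
  refine ⟨e2, Core.ext e1 (funext fun j => ?_) (funext fun j => ?_) (h4.trans h4'.symm)⟩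
  · exact_mod_cast (h2 j).trans (h2' j).symm
  · exact (h3 j).trans (h3' j).symm

theorem Cons.det {u x y y'} (h : Cons M u x y) (h' : Cons M u x y') : y = y' := by
  induction h with
  | nil => cases h'; rfl
  | stay h1 _ ih =>
    cases h' with
    | stay h3 h4 => obtain ⟨-, rfl⟩ := h1.det h3; exact ih h4
    | right h3 h4 => exact absurd (h1.det h3).1 (by simp)
  | right h1 _ ih =>
    cases h' with
    | stay h3 h4 => exact absurd (h1.det h3).1 (by simp)
    | right h3 h4 => obtain ⟨-, rfl⟩ := h1.det h3; exact ih h4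

theorem Move.blind (hb : Blind M) {x x' a mv mv' y y'} (h : Move M x a mv y)
    (h' : Move M x' a mv' y') (e : x.q = x'.q) :
    mv = mv' ∧ y.q = y'.q ∧ ∀ j, (y.cnt j : ℤ) - x.cnt j = y'.cnt j - x'.cnt j := by
  obtain ⟨s, h1, h2, -⟩ := h
  obtain ⟨s', h1', h2', -⟩ := h'
  rw [e, hb _ _ _ (fun j => decide (x'.cnt j = 0)), h1'] at h1
  simp only [Option.some.injEq, Prod.mk.injEq] at h1
  obtain ⟨e1, e2, rfl⟩ := h1
  exact ⟨e2.symm, e1.symm, fun j => by rw [h2, h2']; ring⟩

theorem Cons.blind (hb : Blind M) {u x x' y y'} (h : Cons M u x y) (h' : Cons M u x' y')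
    (e : x.q = x'.q) : y.q = y'.q ∧ ∀ j, (y.cnt j : ℤ) - x.cnt j = y'.cnt j - x'.cnt j := by
  induction h generalizing x' with
  | nil => cases h'; exact ⟨e, by simp⟩
  | stay h1 _ ih =>
    cases h' with
    | stay h3 h4 =>
      obtain ⟨-, e1, e2⟩ := h1.blind hb h3 e
      exact ⟨(ih h4 e1).1, fun j => by linarith [(ih h4 e1).2 j, e2 j]⟩
    | right h3 h4 => exact absurd (h1.blind hb h3 e).1 (by simp)
  | right h1 _ ih =>
    cases h' with
    | stay h3 h4 => exact absurd (h1.blind hb h3 e).1 (by simp)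
    | right h3 h4 =>
      obtain ⟨-, e1, e2⟩ := h1.blind hb h3 e
      exact ⟨(ih h4 e1).1, fun j => by linarith [(ih h4 e1).2 j, e2 j]⟩

theorem Steps.blind (hb : Blind M) {n x x' y y' w e e'} (h : Steps M n x w y e) (hw : w = [])
    (h' : Steps M n x' w y' e') (hq : x.q = x'.q) :
    ∀ j, (y.cnt j : ℤ) - x.cnt j = y'.cnt j - x'.cnt j := by
  induction h generalizing x' with
  | zero => cases h'; simp
  | stay h1 _ ih =>
    subst hw
    cases h' with
    | stay h3 h4 =>
      obtain ⟨-, e1, e2⟩ := h1.blind hb h3 hq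
      exact fun j => by linarith [ih rfl h4 e1 j, e2 j]
  | right => cases hw

theorem Steps.rev_le {n x w y e} (h : Steps M n x w y e) : x.rev ≤ y.rev := by
  induction h with
  | zero => rfl
  | stay h1 _ ih => obtain ⟨s, -, -, -, h⟩ := h1; omega
  | right h1 _ ih => obtain ⟨s, -, -, -, h⟩ := h1; omega

end

/-- the separating language -/
def L0 : Set (List Bool) :=
  {w | ∃ n m, n ≤ m ∧ w = List.replicate n true ++ List.replicate m false}

theorem not_blind (c : ℕ) : L0 ∉ DPBlind Bool c := by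
  rintro ⟨Q, hQ, k, M, ⟨d, hd⟩, hb, hL⟩
  classical
  have := Fintype.ofFinite Q
  set N := Fintype.card (Q × (Fin k → SignType) × Fin (c + 1) × Fin (d + 1)) with hN
  have h1 : ∀ n : Fin (N + 1), ∃ x y z, ∃ j : Fin (d + 1),
      Cons M (List.replicate n true) (init M) x ∧ Cons M (List.replicate N false) x y ∧
      Steps M j y [] z [] ∧ (∀ j, z.cnt j = 0) ∧ x.rev < c + 1 := by
    intro n
    have : List.replicate n true ++ List.replicate N false ∈ LR c M :=
      hL ▸ ⟨n, N, by omega, rfl⟩
    obtain ⟨i, z, h1, -, h3, h4⟩ := this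
    obtain ⟨x, m, h5, h6⟩ := split h1 rfl _ _ rfl
    obtain ⟨y, j, h7, h8⟩ := split h6 rfl _ [] (List.append_nil _).symm
    obtain ⟨i1, a1⟩ := h5.steps (List.replicate N false ++ [])
    obtain ⟨i2, a2⟩ := h7.steps []
    have := hd _ _ _ _ _ _ (a1.trans a2) h8
    have := h6.rev_le
    exact ⟨x, y, z, ⟨j, by omega⟩, h5, h7, h8, h3, by omega⟩
  choose x y z j a1 a2 a3 a4 a5 using h1
  have key : ∀ n n' : Fin (N + 1), n < n' →
      ((x n).q, (x n).dir, (⟨_, a5 n⟩ : Fin (c + 1)), j n)
        ≠ ((x n').q, (x n').dir, (⟨_, a5 n'⟩ : Fin (c + 1)), j n') := by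
    intro n n' hn e
    simp only [Prod.mk.injEq, Fin.mk.injEq] at e
    obtain ⟨e1, e2, e3, e4⟩ := e
    obtain ⟨b1, b2⟩ := (a2 n).blind hb (a2 n') e1
    have b3 := (a3 n).blind hb rfl (e4 ▸ a3 n') b1
    have hx : x n = x n' := by
      refine Core.ext e1 (funext fun i => ?_) e2 e3
      have h1 := b2 i
      have h2 := b3 i
      rw [a4, a4] at h2
      omega
    have : List.replicate n true ++ List.replicate n false ∈ LR c M :=
      hL ▸ ⟨n, n, le_rfl, rfl⟩
    obtain ⟨i, z', h1, h2⟩ := this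
    obtain ⟨x', m, h5, h6⟩ := split h1 rfl _ _ rfl
    rw [h5.det (a1 n), hx] at h6
    obtain ⟨i1, b4⟩ := (a1 n').steps (List.replicate n false)
    have : List.replicate n' true ++ List.replicate n false ∈ L0 :=
      hL ▸ ⟨_, z', b4.trans h6, h2⟩
    obtain ⟨s, t, hst, h7⟩ := this
    have c1 := congrArg (List.count true) h7
    have c2 := congrArg (List.count false) h7
    simp [List.count_replicate] at c1 c2
    have : (n : ℕ) < n' := hn
    omega
  obtain ⟨n, n', hne, e⟩ := Fintype.exists_ne_map_eq_of_card_lt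
    (fun n : Fin (N + 1) => ((x n).q, (x n).dir, (⟨_, a5 n⟩ : Fin (c + 1)), j n))
    (by rw [← hN]; simp)
  rcases lt_or_gt_of_ne hne with h | h
  · exact key _ _ h e
  · exact key _ _ h e.symm

/-- the one-counter machine -/
def M0 : Mach Bool Bool 1 where
  δ q a z := match a with
    | none => none
    | some true => if q then some (true, true, fun _ => 1) else none
    | some false => some (false, true, fun _ => if z 0 then 0 else -1)
  start := true
  final := Set.univ

theorem M0_stay {x a y} : ¬ Move M0 x a false y := by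
  rintro ⟨s, h, -⟩
  rcases a with _ | _ | _ <;> simp [M0] at h

theorem M0_len {n x w y e} (h : Steps M0 n x w y e) : w.length = n + e.length := by
  induction h with
  | zero => simp
  | stay h1 => exact absurd h1 M0_stay
  | right _ _ ih => simp [ih]; ring

theorem M0_sound {n x w z e} (h : Steps M0 n x w z e) (he : e = []) (hz : z.cnt 0 = 0) :
    ∃ s t, s + x.cnt 0 ≤ t ∧ (x.q = false → s = 0) ∧
      w = List.replicate s true ++ List.replicate t false := by
  induction h with
  | zero => exact ⟨0, 0, by omega, fun _ => rfl, he⟩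
  | stay h1 => exact absurd h1 M0_stay
  | @right n x a w y z w' h1 _ ih =>
    obtain ⟨s, t, h2, h3, rfl⟩ := ih he hz
    obtain ⟨σ, h4, h5, -⟩ := h1
    have h6 := h5 0
    cases a
    · simp only [M0, Option.some.injEq, Prod.mk.injEq, true_and] at h4
      obtain ⟨h7, rfl⟩ := h4
      obtain rfl := h3 h7.symm
      refine ⟨0, t + 1, ?_, fun _ => rfl, by simp [List.replicate_succ]⟩
      by_cases h8 : x.cnt 0 = 0
      · omega
      · simp [h8] at h6
        omega
    · cases hq : x.q
      · simp [M0, hq] at h4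
      · simp only [M0, hq, if_true, Option.some.injEq, Prod.mk.injEq, true_and] at h4
        obtain ⟨h7, rfl⟩ := h4
        refine ⟨s + 1, t, ?_, by simp, by simp [List.replicate_succ]⟩
        simp at h6
        omega

theorem M0_b : ∀ (t : ℕ) (x : Core Bool 1), x.cnt 0 ≤ t → ∃ z,
    Steps M0 t x (List.replicate t false) z [] ∧ z.cnt 0 = 0 ∧
      z.rev ≤ x.rev + if x.dir 0 = 1 then 1 else 0 := by
  intro t
  induction t with
  | zero => intro x hx; exact ⟨x, .zero _ _, by omega, by omega⟩
  | succ t ih =>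
    intro x hx
    by_cases h : x.cnt 0 = 0
    · obtain ⟨z, h1, h2, h3⟩ := ih ⟨false, x.cnt, x.dir, x.rev⟩ (by simp [h])
      exact ⟨z, .right ⟨fun _ => 0, by simp [M0, h], by simp, by simp, by simp⟩ h1, h2, h3⟩
    · obtain ⟨z, h1, h2, h3⟩ := ih ⟨false, fun _ => x.cnt 0 - 1, fun _ => -1,
        x.rev + if x.dir 0 = 1 then 1 else 0⟩ (by simp; omega)
      refine ⟨z, .right ⟨fun _ => -1, by simp [M0, h], ?_, by simp, ?_⟩ h1, h2, by simpa using h3⟩
      · intro j
        obtain rfl : j = 0 := Subsingleton.elim _ _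
        simp
        omega
      · simp only [card_filter, Fin.sum_univ_one]
        simp

theorem M0_a : ∀ (s t : ℕ) (x : Core Bool 1), x.q = true → x.dir 0 ≠ -1 → s + x.cnt 0 ≤ t → ∃ n z,
    Steps M0 n x (List.replicate s true ++ List.replicate t false) z [] ∧ z.cnt 0 = 0 ∧
      z.rev ≤ x.rev + 1 := by
  intro s
  induction s with
  | zero =>
    intro t x _ _ hx
    obtain ⟨z, h1, h2, h3⟩ := M0_b t x (by omega)
    exact ⟨t, z, h1, h2, by split_ifs at h3 <;> omega⟩
  | succ s ih =>
    intro t x hq hd hx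
    obtain ⟨n, z, h1, h2, h3⟩ := ih t ⟨true, fun _ => x.cnt 0 + 1, fun _ => 1, x.rev⟩ rfl
      (by simp) (by simp; omega)
    refine ⟨n + 1, z, .right ⟨fun _ => 1, by simp [M0, hq], ?_, by simp, ?_⟩ h1, h2, h3⟩
    · intro j
      obtain rfl : j = 0 := Subsingleton.elim _ _
      simp
    · simp only [card_filter, Fin.sum_univ_one]
      simp [hd]

theorem result (c : ℕ) (hc : 1 ≤ c) :
    ∃ L : Set (List Bool), L ∈ DCounter Bool c ∧ L ∉ DPBlind Bool c := by
  refine ⟨L0, ⟨Bool, inferInstance, 1, M0, ⟨0, fun w i x u j y _ h => ?_⟩, ?_⟩, not_blind c⟩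
  · have := M0_len h
    omega
  · ext w
    constructor
    · rintro ⟨s, t, h, rfl⟩
      obtain ⟨n, z, h1, h2, h3⟩ := M0_a s t (init M0) rfl (by simp [init]) (by simpa [init])
      refine ⟨n, z, h1, trivial, fun j => ?_, ?_⟩
      · obtain rfl : j = 0 := Subsingleton.elim _ _
        exact h2
      · simp [init] at h3
        omega
    · rintro ⟨n, z, h1, -, h3, -⟩
      obtain ⟨s, t, h4, -, h5⟩ := M0_sound h1 rfl (h3 0)
      exact ⟨s, t, by omega, h5⟩

end Pool.Agent.Results.MP_24384b_lc.No
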